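import Mathlib

/-!
Polynomial numerical index of a complex normed space.
-/

namespace Pool.Agent.Lib.MP_8db9bd_an

/-- `P : X → X` is a continuous `k`-homogeneous polynomial: `P x = A (x, …, x)` for a
continuous `k`-linear map `A : X × ⋯ × X → X`. -/
def IsHomPoly (k : ℕ) {X : Type*} [NormedAddCommGroup X] [NormedSpace ℂ X] (P : X → X) : Prop :=
  ∃ A : ContinuousMultilinearMap ℂ (fun _ : Fin k => X) X, ∀ x : X, P x = A (fun _ => x)

/-- `‖P‖ = sup { ‖P x‖ : ‖x‖ = 1 }`. -/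
noncomputable def polyNorm {X : Type*} [NormedAddCommGroup X] (P : X → X) : ℝ :=
  sSup {r : ℝ | ∃ x : X, ‖x‖ = 1 ∧ r = ‖P x‖}

/-- The numerical radius `v(P) = sup { |f (P x)| : ‖x‖ = 1, f ∈ X*, ‖f‖ = 1, f x = 1 }`. -/
noncomputable def numRadius {X : Type*} [NormedAddCommGroup X] [NormedSpace ℂ X] (P : X → X) : ℝ :=
  sSup {r : ℝ | ∃ (x : X) (f : X →L[ℂ] ℂ), ‖x‖ = 1 ∧ ‖f‖ = 1 ∧ f x = 1 ∧ r = ‖f (P x)‖}

/-- The polynomial numerical index of order `k`: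
`n^(k)(X) = inf { v(P) : P a continuous k-homogeneous polynomial X → X, ‖P‖ = 1 }`. -/
noncomputable def polyNumIndex (k : ℕ) (X : Type*) [NormedAddCommGroup X] [NormedSpace ℂ X] : ℝ :=
  sInf {r : ℝ | ∃ P : X → X, IsHomPoly k P ∧ polyNorm P = 1 ∧ r = numRadius P}

end Pool.Agent.Lib.MP_8db9bd_an
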