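import Mathlib
import Pool.Agent.Lib.MP_8db9bd_an.Defs

namespace Pool.Agent.Lib.MP_8db9bd_an

open scoped InnerProductSpace ComplexConjugate

section general

variable {X : Type*} [NormedAddCommGroup X] [NormedSpace ℂ X] {k : ℕ}

lemma diag_smul (A : ContinuousMultilinearMap ℂ (fun _ : Fin k => X) X) (c : ℂ) (x : X) :
    A (fun _ => c • x) = c ^ k • A (fun _ => x) := by
  have := A.map_smul_univ (fun _ => c) (fun _ => x)
  simpa using this

lemma diag_norm_le (A : ContinuousMultilinearMap ℂ (fun _ : Fin k => X) X) (x : X)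
    (hx : ‖x‖ = 1) : ‖A (fun _ => x)‖ ≤ ‖A‖ := by
  have := A.le_opNorm (fun _ => x)
  simpa [hx] using this

lemma bdd_polyNorm {P : X → X} (hP : IsHomPoly k P) :
    BddAbove {r : ℝ | ∃ x : X, ‖x‖ = 1 ∧ r = ‖P x‖} := by
  obtain ⟨A, hA⟩ := hP
  refine ⟨‖A‖, ?_⟩
  rintro r ⟨x, hx, rfl⟩
  rw [hA]
  exact diag_norm_le A x hx

lemma le_polyNorm {P : X → X} (hP : IsHomPoly k P) {x : X} (hx : ‖x‖ = 1) :
    ‖P x‖ ≤ polyNorm P :=
  le_csSup (bdd_polyNorm hP) ⟨x, hx, rfl⟩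

lemma polyNorm_nonneg (P : X → X) : 0 ≤ polyNorm P := by
  apply Real.sSup_nonneg
  rintro r ⟨x, -, rfl⟩
  exact norm_nonneg _

lemma polyNorm_le {P : X → X} {M : ℝ} (hM : 0 ≤ M) (h : ∀ x : X, ‖x‖ = 1 → ‖P x‖ ≤ M) :
    polyNorm P ≤ M := by
  apply Real.sSup_le _ hM
  rintro r ⟨x, hx, rfl⟩
  exact h x hx

lemma numRadius_nonneg (P : X → X) : 0 ≤ numRadius P := by
  apply Real.sSup_nonneg
  rintro r ⟨x, f, -, -, -, rfl⟩
  exact norm_nonneg _

lemma numRadius_le {P : X → X} {M : ℝ} (hM : 0 ≤ M)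
    (h : ∀ (x : X) (f : X →L[ℂ] ℂ), ‖x‖ = 1 → ‖f‖ = 1 → f x = 1 → ‖f (P x)‖ ≤ M) :
    numRadius P ≤ M := by
  apply Real.sSup_le _ hM
  rintro r ⟨x, f, hx, hf, hfx, rfl⟩
  exact h x f hx hf hfx

lemma numRadius_le_polyNorm {P : X → X} (hP : IsHomPoly k P) : numRadius P ≤ polyNorm P := by
  apply numRadius_le (polyNorm_nonneg P)
  intro x f hx hf _
  calc ‖f (P x)‖ ≤ ‖f‖ * ‖P x‖ := f.le_opNorm _
    _ = ‖P x‖ := by rw [hf, one_mul]
    _ ≤ polyNorm P := le_polyNorm hP hx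

lemma le_numRadius {P : X → X} (hP : IsHomPoly k P) {x : X} {f : X →L[ℂ] ℂ} (hx : ‖x‖ = 1)
    (hf : ‖f‖ = 1) (hfx : f x = 1) : ‖f (P x)‖ ≤ numRadius P := by
  refine le_csSup ⟨polyNorm P, ?_⟩ ⟨x, f, hx, hf, hfx, rfl⟩
  rintro r ⟨x, f, hx, hf, -, rfl⟩
  calc ‖f (P x)‖ ≤ ‖f‖ * ‖P x‖ := f.le_opNorm _
    _ = ‖P x‖ := by rw [hf, one_mul]
    _ ≤ polyNorm P := le_polyNorm hP hx

lemma polyNumIndex_le {P : X → X} (hP : IsHomPoly k P) (h1 : polyNorm P = 1) :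
    polyNumIndex k X ≤ numRadius P := by
  refine csInf_le ⟨0, ?_⟩ ⟨P, hP, h1, rfl⟩
  rintro r ⟨Q, -, -, rfl⟩
  exact numRadius_nonneg Q

lemma le_polyNumIndex {P₀ : X → X} (hP₀ : IsHomPoly k P₀) (h₀ : polyNorm P₀ = 1) {m : ℝ}
    (h : ∀ P : X → X, IsHomPoly k P → polyNorm P = 1 → m ≤ numRadius P) :
    m ≤ polyNumIndex k X := by
  refine le_csInf ⟨_, P₀, hP₀, h₀, rfl⟩ ?_
  rintro r ⟨Q, hQ, hQ1, rfl⟩
  exact h Q hQ hQ1

end general

section hilbert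

variable {H : Type*} [NormedAddCommGroup H] [InnerProductSpace ℂ H] {k : ℕ}

/-- In an inner product space a norm-one functional with `f x = 1 = ‖x‖` is `⟪x, ·⟫`. -/
lemma support_functional_eq {x : H} {f : H →L[ℂ] ℂ} (hx : ‖x‖ = 1) (hf : ‖f‖ = 1)
    (hfx : f x = 1) (z : H) : f z = ⟪x, z⟫_ℂ := by
  have hxx : ⟪x, x⟫_ℂ = 1 := by
    rw [inner_self_eq_norm_sq_to_K, hx]; simp
  set y : H := z - ⟪x, z⟫_ℂ • x with hy
  have hxy : ⟪x, y⟫_ℂ = 0 := by
    rw [hy, inner_sub_right, inner_smul_right, hxx]; ring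
  have hfy : f y = 0 := by
    by_contra hne
    have hpos : 0 < ‖f y‖ := norm_pos_iff.mpr hne
    have hy0 : 0 < ‖y‖ := by
      rcases (norm_nonneg y).lt_or_eq with h | h
      · exact h
      · exfalso
        have : y = 0 := norm_eq_zero.mp h.symm
        apply hne
        rw [this, map_zero]
    set t : ℝ := 1 / ‖y‖ ^ 2 with ht
    have htpos : 0 < t := by positivity
    set c : ℂ := (t : ℂ) * conj (f y) with hc
    have h1 : f (x + c • y) = ((1 + t * ‖f y‖ ^ 2 : ℝ) : ℂ) := by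
      rw [map_add, map_smul, hfx, smul_eq_mul, hc, mul_assoc, Complex.conj_mul']
      push_cast
      ring
    have h2 : ‖x + c • y‖ ^ 2 = 1 + t * ‖f y‖ ^ 2 := by
      rw [@norm_add_sq ℂ, inner_smul_right, hxy, hx, norm_smul, hc, norm_mul, Complex.norm_real,
        Complex.norm_conj, Real.norm_eq_abs, abs_of_pos htpos]
      simp only [mul_zero, map_zero, add_zero, one_pow]
      rw [ht]
      field_simp
    have h3 : ‖f (x + c • y)‖ ≤ ‖x + c • y‖ := by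
      have := f.le_opNorm (x + c • y)
      rwa [hf, one_mul] at this
    have hq : 0 < t * ‖f y‖ ^ 2 := by positivity
    rw [h1, Complex.norm_real, Real.norm_eq_abs, abs_of_pos (by positivity)] at h3
    have h4 : (1 + t * ‖f y‖ ^ 2) ^ 2 ≤ ‖x + c • y‖ ^ 2 := by
      gcongr
    rw [h2] at h4
    nlinarith
  have : z = y + ⟪x, z⟫_ℂ • x := by rw [hy]; abel
  conv_lhs => rw [this]
  rw [map_add, map_smul, hfy, hfx]
  simp

lemma inner_le_numRadius {P : H → H} (hP : IsHomPoly k P) {x : H} (hx : ‖x‖ = 1) :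
    ‖⟪x, P x⟫_ℂ‖ ≤ numRadius P := by
  have h := le_numRadius hP (f := innerSL ℂ x) hx (by rw [innerSL_apply_norm, hx])
    (by rw [innerSL_apply_apply, inner_self_eq_norm_sq_to_K, hx]; simp)
  simpa using h

lemma inner_le_numRadius_mul {P : H → H} (hP : IsHomPoly k P) (u : H) :
    ‖⟪u, P u⟫_ℂ‖ ≤ numRadius P * ‖u‖ ^ (k + 1) := by
  by_cases hu : u = 0
  · simp [hu]
  have hpos : 0 < ‖u‖ := norm_pos_iff.mpr hu
  set x : H := ((‖u‖⁻¹ : ℝ) : ℂ) • u with hxdef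
  have hx : ‖x‖ = 1 := by
    rw [hxdef, norm_smul, Complex.norm_real, Real.norm_eq_abs, abs_of_pos (inv_pos.mpr hpos)]
    exact inv_mul_cancel₀ hpos.ne'
  have hux : u = ((‖u‖ : ℝ) : ℂ) • x := by
    rw [hxdef, smul_smul, ← Complex.ofReal_mul, mul_inv_cancel₀ hpos.ne']
    simp
  have h := inner_le_numRadius hP hx
  obtain ⟨A, hA⟩ := hP
  have e : ⟪u, P u⟫_ℂ = ((‖u‖ : ℝ) : ℂ) ^ (k + 1) * ⟪x, P x⟫_ℂ := by
    conv_lhs => rw [hux]
    rw [hA, hA, diag_smul, inner_smul_left, inner_smul_right, Complex.conj_ofReal]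
    ring
  rw [e, norm_mul, norm_pow, Complex.norm_real, Real.norm_eq_abs, abs_of_pos hpos, mul_comm]
  gcongr

/-- The norm of the curve `a + l b` on the unit circle. -/
lemma curve_norm_sq_le (x y : H) (N : ℝ) (hN : N = ‖x‖ ^ 2 + ‖y‖ ^ 2) (w : ℂ)
    (hw : ⟪y, x⟫_ℂ = (N : ℂ) * w) (l : ℂ) (hl : ‖l‖ = 1) :
    ‖(x - w • y) + l • (y - conj w • x)‖ ^ 2 ≤ N * (1 - ‖w‖ ^ 2) ^ 2 := by
  have e : (x - w • y) + l • (y - conj w • x) = (1 - l * conj w) • x + (l - w) • y := by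
    simp only [smul_sub, sub_smul, one_smul, smul_smul]
    abel
  have hxy : ⟪x, y⟫_ℂ = (N : ℂ) * conj w := by
    rw [← inner_conj_symm, hw]; simp
  have hl2 : l.re ^ 2 + l.im ^ 2 = 1 := by
    have := Complex.sq_norm l
    rw [hl, Complex.normSq_apply] at this
    nlinarith
  have hw2 : ‖w‖ ^ 2 = w.re ^ 2 + w.im ^ 2 := by
    rw [Complex.sq_norm, Complex.normSq_apply]; ring
  set m : ℝ := l.re * w.re + l.im * w.im with hm
  have hm1 : m ≤ ‖w‖ := by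
    have h1 : m = (conj l * w).re := by simp [hm]
    rw [h1]
    calc (conj l * w).re ≤ ‖conj l * w‖ := Complex.re_le_norm _
      _ = ‖w‖ := by rw [norm_mul, Complex.norm_conj, hl, one_mul]
  have n1 : ‖1 - l * conj w‖ ^ 2 = 1 + ‖w‖ ^ 2 - 2 * m := by
    rw [Complex.sq_norm, Complex.normSq_apply, hw2, hm]
    simp
    linear_combination (w.re ^ 2 + w.im ^ 2) * hl2
  have n2 : ‖l - w‖ ^ 2 = 1 + ‖w‖ ^ 2 - 2 * m := by
    rw [Complex.sq_norm, Complex.normSq_apply, hw2, hm]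
    simp
    linear_combination hl2
  have n3 : (conj (1 - l * conj w) * ((l - w) * ((N : ℂ) * conj w))).re
      = N * (m - 2 * ‖w‖ ^ 2 + m * ‖w‖ ^ 2) := by
    rw [hw2, hm]
    simp
    linear_combination (-N * (w.re ^ 2 + w.im ^ 2)) * hl2
  have hN0 : 0 ≤ N := by rw [hN]; positivity
  rw [e, @norm_add_sq ℂ, inner_smul_left, inner_smul_right, hxy, norm_smul, norm_smul, mul_pow,
    mul_pow, n1, n2]
  simp only [RCLike.re_to_complex]
  rw [n3]
  have h0 : 0 ≤ ‖w‖ := norm_nonneg w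
  have key : (1 + ‖w‖ ^ 2 - 2 * m) + 2 * (m - 2 * ‖w‖ ^ 2 + m * ‖w‖ ^ 2) ≤ (1 - ‖w‖ ^ 2) ^ 2 := by
    have h5 : m * ‖w‖ ^ 2 ≤ ‖w‖ * ‖w‖ ^ 2 := by gcongr
    nlinarith [sq_nonneg (‖w‖ * (1 - ‖w‖))]
  calc (1 + ‖w‖ ^ 2 - 2 * m) * ‖x‖ ^ 2 + 2 * (N * (m - 2 * ‖w‖ ^ 2 + m * ‖w‖ ^ 2))
        + (1 + ‖w‖ ^ 2 - 2 * m) * ‖y‖ ^ 2
      = N * ((1 + ‖w‖ ^ 2 - 2 * m) + 2 * (m - 2 * ‖w‖ ^ 2 + m * ‖w‖ ^ 2)) := by
        rw [hN]; ring
    _ ≤ N * (1 - ‖w‖ ^ 2) ^ 2 := by gcongr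

/-- Main estimate, from the maximum modulus principle. -/
lemma inner_le_of_numRadius {P : H → H} (hP : IsHomPoly k P) (x y : H) :
    ‖⟪y, P x⟫_ℂ‖ ≤ numRadius P * Real.sqrt (‖x‖ ^ 2 + ‖y‖ ^ 2) ^ (k + 1) := by
  set N : ℝ := ‖x‖ ^ 2 + ‖y‖ ^ 2 with hN
  have hv := numRadius_nonneg P
  by_cases hy : y = 0
  · rw [hy, inner_zero_left, norm_zero]; positivity
  have hypos : 0 < ‖y‖ := norm_pos_iff.mpr hy
  have hNpos : 0 < N := by rw [hN]; positivity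
  set w : ℂ := ⟪y, x⟫_ℂ / (N : ℂ) with hwdef
  have hNc : (N : ℂ) ≠ 0 := by exact_mod_cast hNpos.ne'
  have hw : ⟪y, x⟫_ℂ = (N : ℂ) * w := by rw [hwdef]; field_simp
  have hwn : ‖w‖ ≤ 1 / 2 := by
    rw [hwdef, norm_div, Complex.norm_real, Real.norm_eq_abs, abs_of_pos hNpos, div_le_iff₀ hNpos]
    have := norm_inner_le_norm (𝕜 := ℂ) y x
    rw [hN]
    nlinarith [sq_nonneg (‖x‖ - ‖y‖)]
  have hw0 : 0 ≤ ‖w‖ := norm_nonneg w
  have hd : 0 < 1 - ‖w‖ ^ 2 := by nlinarith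
  set a : H := x - w • y with ha
  set b : H := y - conj w • x with hb
  have hbound := inner_le_numRadius_mul hP
  obtain ⟨A, hA⟩ := hP
  set g : ℂ → ℂ := fun l => l * ⟪a, P (a + l • b)⟫_ℂ + ⟪b, P (a + l • b)⟫_ℂ with hg
  have hdiffP : Differentiable ℂ (fun l : ℂ => P (a + l • b)) := by
    have h1 : (fun l : ℂ => P (a + l • b)) = fun l : ℂ => A (fun _ => a + l • b) := by
      funext l; exact hA _
    rw [h1]
    have h2 : Differentiable ℂ (fun l : ℂ => (fun _ : Fin k => a + l • b)) := by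
      rw [differentiable_pi]
      intro i
      fun_prop
    exact ((A.contDiff (n := 1)).differentiable (by norm_num)).comp h2
  have hdiff : Differentiable ℂ g := by
    have h1 : Differentiable ℂ (fun l : ℂ => ⟪a, P (a + l • b)⟫_ℂ) :=
      (innerSL ℂ a).differentiable.comp hdiffP
    have h2 : Differentiable ℂ (fun l : ℂ => ⟪b, P (a + l • b)⟫_ℂ) :=
      (innerSL ℂ b).differentiable.comp hdiffP
    exact (differentiable_id.mul h1).add h2
  have hfront : ∀ l ∈ frontier (Metric.ball (0 : ℂ) 1),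
      ‖g l‖ ≤ numRadius P * (Real.sqrt N * (1 - ‖w‖ ^ 2)) ^ (k + 1) := by
    intro l hl
    rw [frontier_ball (0 : ℂ) one_ne_zero, mem_sphere_zero_iff_norm] at hl
    have hll : l * conj l = 1 := by
      rw [Complex.mul_conj', hl]; simp
    have e : g l = l * ⟪a + l • b, P (a + l • b)⟫_ℂ := by
      rw [inner_add_left, inner_smul_left, hg]
      linear_combination (-⟪b, P (a + l • b)⟫_ℂ) * hll
    have hcurve : ‖a + l • b‖ ≤ Real.sqrt N * (1 - ‖w‖ ^ 2) := by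
      have h1 := curve_norm_sq_le x y N hN w hw l hl
      have h2 : (Real.sqrt N * (1 - ‖w‖ ^ 2)) ^ 2 = N * (1 - ‖w‖ ^ 2) ^ 2 := by
        rw [mul_pow, Real.sq_sqrt hNpos.le]
      rw [← h2] at h1
      exact (pow_le_pow_iff_left₀ (norm_nonneg _) (by positivity) two_ne_zero).mp h1
    rw [e, norm_mul, hl, one_mul]
    refine (hbound _).trans ?_
    gcongr
  have hmem : w ∈ closure (Metric.ball (0 : ℂ) 1) := by
    apply subset_closure
    rw [mem_ball_zero_iff]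
    linarith
  have hmax := Complex.norm_le_of_forall_mem_frontier_norm_le Metric.isBounded_ball
    hdiff.diffContOnCl hfront hmem
  have hww : w * conj w = ((‖w‖ ^ 2 : ℝ) : ℂ) := by
    rw [Complex.mul_conj']; push_cast; ring
  set d : ℂ := ((1 - ‖w‖ ^ 2 : ℝ) : ℂ) with hddef
  have hd1 : d = 1 - w * conj w := by rw [hww, hddef]; push_cast; ring
  have e1 : a + w • b = d • x := by
    rw [ha, hb, hd1]
    simp only [smul_sub, sub_smul, one_smul, smul_smul]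
    abel
  have e2 : conj w • a + b = d • y := by
    rw [ha, hb, hd1]
    simp only [smul_sub, sub_smul, one_smul, smul_smul, mul_comm (conj w) w]
    abel
  have e3 : g w = d ^ (k + 1) * ⟪y, P x⟫_ℂ := by
    have : g w = ⟪conj w • a + b, P (a + w • b)⟫_ℂ := by
      rw [inner_add_left, inner_smul_left, hg]
      simp
    rw [this, e1, e2, hA, hA, diag_smul, inner_smul_left, inner_smul_right, hddef,
      Complex.conj_ofReal]
    ring
  rw [e3, norm_mul, norm_pow, hddef, Complex.norm_real, Real.norm_eq_abs, abs_of_pos hd,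
    mul_pow] at hmax
  have hdk : 0 < (1 - ‖w‖ ^ 2) ^ (k + 1) := by positivity
  have : (1 - ‖w‖ ^ 2) ^ (k + 1) * ‖⟪y, P x⟫_ℂ‖
      ≤ (1 - ‖w‖ ^ 2) ^ (k + 1) * (numRadius P * Real.sqrt N ^ (k + 1)) := by
    calc _ ≤ _ := hmax
      _ = _ := by ring
  exact le_of_mul_le_mul_left this hdk

end hilbert

end Pool.Agent.Lib.MP_8db9bd_an
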