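import Mathlib
import Pool.Agent.Lib.MP_8db9bd_an.Hilbert

namespace Pool.Agent.Lib.MP_8db9bd_an

open scoped InnerProductSpace ComplexConjugate

variable {H : Type*} [NormedAddCommGroup H] [InnerProductSpace ℂ H] {k : ℕ}

/-- Weighted AM-GM in the form needed: `s^k t ≤ k^k/(k+1)^(k+1)` if `s + t ≤ 1`. -/
lemma amgm (k : ℕ) (s t : ℝ) (hs : 0 ≤ s) (ht : 0 ≤ t) (hst : s + t ≤ 1) :
    s ^ k * t ≤ (k : ℝ) ^ k / ((k : ℝ) + 1) ^ (k + 1) := by
  rcases Nat.eq_zero_or_pos k with rfl | hk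
  · simp; linarith
  have hk' : (0 : ℝ) < k := by exact_mod_cast hk
  have hk1 : (0 : ℝ) < (k : ℝ) + 1 := by linarith
  -- Bernoulli-type inequality
  set u : ℝ := s * ((k : ℝ) + 1) / k with hu
  have hu0 : 0 ≤ u := by positivity
  have hs' : s = u * k / ((k : ℝ) + 1) := by rw [hu]; field_simp
  have key : ∀ n : ℕ, u ^ n * (((n : ℝ) + 1) - n * u) ≤ 1 := by
    intro n
    induction n with
    | zero => simp
    | succ n ih =>
      have h1 : 0 ≤ u ^ n := pow_nonneg hu0 n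
      have h2 : u ^ (n + 1) * ((((n + 1 : ℕ) : ℝ) + 1) - ((n + 1 : ℕ) : ℝ) * u)
          = u ^ n * (((n : ℝ) + 1) - n * u) - u ^ n * (((n : ℝ) + 1) * (1 - u) ^ 2) := by
        push_cast; ring
      rw [h2]
      have h3 : 0 ≤ u ^ n * (((n : ℝ) + 1) * (1 - u) ^ 2) := by positivity
      linarith
  have ht' : t ≤ (((k : ℝ) + 1) - k * u) / ((k : ℝ) + 1) := by
    rw [le_div_iff₀ hk1, hu]
    field_simp
    nlinarith
  calc s ^ k * t ≤ s ^ k * ((((k : ℝ) + 1) - k * u) / ((k : ℝ) + 1)) := by gcongr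
    _ = (u ^ k * (((k : ℝ) + 1) - k * u)) * ((k : ℝ) ^ k / ((k : ℝ) + 1) ^ (k + 1)) := by
        rw [hs']; rw [div_pow, mul_pow]; field_simp; ring
    _ ≤ 1 * ((k : ℝ) ^ k / ((k : ℝ) + 1) ^ (k + 1)) := by
        gcongr
        exact key k
    _ = _ := one_mul _

/-- The rank-one polynomial `x ↦ ⟪e, x⟫^k • e'`. -/
lemma isHomPoly_rankOne (k : ℕ) (e e' : H) :
    IsHomPoly k (fun x : H => ⟪e, x⟫_ℂ ^ k • e') := by
  refine ⟨((ContinuousMultilinearMap.mkPiAlgebra ℂ (Fin k) ℂ).compContinuousLinearMap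
    (fun _ => innerSL ℂ e)).smulRight e', ?_⟩
  intro x
  simp

lemma polyNorm_rankOne (k : ℕ) {e e' : H} (he : ‖e‖ = 1) (he' : ‖e'‖ = 1) :
    polyNorm (fun x : H => ⟪e, x⟫_ℂ ^ k • e') = 1 := by
  apply le_antisymm
  · apply polyNorm_le zero_le_one
    intro x hx
    rw [norm_smul, he', mul_one, norm_pow]
    apply pow_le_one₀ (norm_nonneg _)
    have := norm_inner_le_norm (𝕜 := ℂ) e x
    rwa [he, hx, one_mul] at this
  · have := le_polyNorm (isHomPoly_rankOne k e e') he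
    rwa [inner_self_eq_norm_sq_to_K, he, norm_smul, he', mul_one, norm_pow, RCLike.ofReal_one,
      one_pow, norm_one, one_pow] at this

lemma numRadius_rankOne (k : ℕ) {e e' : H} (he : ‖e‖ = 1) (he' : ‖e'‖ = 1)
    (hee : ⟪e, e'⟫_ℂ = 0) :
    numRadius (fun x : H => ⟪e, x⟫_ℂ ^ k • e')
      ≤ Real.sqrt ((k : ℝ) ^ k / ((k : ℝ) + 1) ^ (k + 1)) := by
  apply numRadius_le (Real.sqrt_nonneg _)
  intro x f hx hf hfx
  rw [support_functional_eq hx hf hfx, inner_smul_right, norm_mul, norm_pow]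
  apply Real.le_sqrt_of_sq_le
  have hbessel : ‖⟪e, x⟫_ℂ‖ ^ 2 + ‖⟪x, e'⟫_ℂ‖ ^ 2 ≤ 1 := by
    have horth : Orthonormal ℂ ![e, e'] := by
      rw [orthonormal_iff_ite]
      intro i j
      have hee' : ⟪e', e⟫_ℂ = 0 := by rw [← inner_conj_symm, hee]; simp
      fin_cases i <;> fin_cases j <;>
        simp [inner_self_eq_norm_sq_to_K, he, he', hee, hee']
    have := horth.sum_inner_products_le (s := Finset.univ) x
    rw [Fin.sum_univ_two, hx] at this
    simp only [Matrix.cons_val_zero, Matrix.cons_val_one, one_pow] at this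
    rw [norm_inner_symm x e']
    simpa using this
  have := amgm k (‖⟪e, x⟫_ℂ‖ ^ 2) (‖⟪x, e'⟫_ℂ‖ ^ 2) (by positivity) (by positivity) hbessel
  calc (‖⟪e, x⟫_ℂ‖ ^ k * ‖⟪x, e'⟫_ℂ‖) ^ 2 = (‖⟪e, x⟫_ℂ‖ ^ 2) ^ k * ‖⟪x, e'⟫_ℂ‖ ^ 2 := by ring
    _ ≤ _ := this

/-- The sharp lower bound for the numerical radius. -/
lemma sqrt_mul_polyNorm_le (hk : 1 ≤ k) {P : H → H} (hP : IsHomPoly k P) :
    Real.sqrt ((k : ℝ) ^ k / ((k : ℝ) + 1) ^ (k + 1)) * polyNorm P ≤ numRadius P := by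
  have hk' : (0 : ℝ) < k := by exact_mod_cast hk
  have hv := numRadius_nonneg P
  set c : ℝ := Real.sqrt ((k : ℝ) ^ k / ((k : ℝ) + 1) ^ (k + 1)) with hc
  have hcpos : 0 < c := Real.sqrt_pos.mpr (by positivity)
  rw [mul_comm, ← le_div_iff₀ hcpos]
  apply polyNorm_le (by positivity)
  intro x hx
  rw [le_div_iff₀ hcpos]
  by_cases h0 : P x = 0
  · rw [h0, norm_zero, zero_mul]; exact hv
  have hpos : 0 < ‖P x‖ := norm_pos_iff.mpr h0
  set y : H := ((‖P x‖⁻¹ : ℝ) : ℂ) • P x with hydef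
  have hy : ‖y‖ = 1 := by
    rw [hydef, norm_smul, Complex.norm_real, Real.norm_eq_abs, abs_of_pos (inv_pos.mpr hpos)]
    exact inv_mul_cancel₀ hpos.ne'
  have hyP : ‖⟪y, P x⟫_ℂ‖ = ‖P x‖ := by
    rw [hydef, inner_smul_left, Complex.conj_ofReal, inner_self_eq_norm_sq_to_K, norm_mul,
      Complex.norm_real, Real.norm_eq_abs, abs_of_pos (inv_pos.mpr hpos), norm_pow]
    simp only [Complex.coe_algebraMap, Complex.norm_real, Real.norm_eq_abs, abs_norm]
    field_simp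
  set ξ : ℝ := Real.sqrt k with hξ
  have hξpos : 0 < ξ := Real.sqrt_pos.mpr hk'
  have hξ2 : ξ ^ 2 = k := Real.sq_sqrt hk'.le
  have h := inner_le_of_numRadius hP ((ξ : ℂ) • x) y
  obtain ⟨A, hA⟩ := hP
  rw [hA, diag_smul, ← hA, inner_smul_right, norm_mul, norm_pow, Complex.norm_real,
    Real.norm_eq_abs, abs_of_pos hξpos, hyP, norm_smul, Complex.norm_real, Real.norm_eq_abs,
    abs_of_pos hξpos, hx, hy, mul_one, hξ2, one_pow] at h
  have hs : 0 < Real.sqrt ((k : ℝ) + 1) := Real.sqrt_pos.mpr (by linarith)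
  have hcc : c = ξ ^ k / Real.sqrt ((k : ℝ) + 1) ^ (k + 1) := by
    rw [hc, Real.sqrt_eq_iff_mul_self_eq (by positivity) (by positivity), ← sq, div_pow,
      ← pow_mul, ← pow_mul, mul_comm k 2, mul_comm (k + 1) 2, pow_mul, pow_mul, hξ2,
      Real.sq_sqrt (by linarith)]
  rw [hcc, ← mul_div_assoc, div_le_iff₀ (by positivity)]
  linarith

lemma exists_orthonormal_pair (h : 2 ≤ Module.rank ℂ H) :
    ∃ e e' : H, ‖e‖ = 1 ∧ ‖e'‖ = 1 ∧ ⟪e, e'⟫_ℂ = 0 := by
  have h' : ((2 : ℕ) : Cardinal) ≤ Module.rank ℂ H := by exact_mod_cast h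
  obtain ⟨v, hv⟩ := exists_linearIndependent_of_le_rank h'
  have horth := InnerProductSpace.gramSchmidtNormed_orthonormal (𝕜 := ℂ) hv
  exact ⟨_, _, horth.1 0, horth.1 1, horth.2 (by decide : (0 : Fin 2) ≠ 1)⟩

theorem polyNumIndex_hilbert_sqrt (hk : 1 ≤ k) (h : 2 ≤ Module.rank ℂ H) :
    polyNumIndex k H = Real.sqrt ((k : ℝ) ^ k / ((k : ℝ) + 1) ^ (k + 1)) := by
  obtain ⟨e, e', he, he', hee⟩ := exists_orthonormal_pair h
  apply le_antisymm
  · exact (polyNumIndex_le (isHomPoly_rankOne k e e') (polyNorm_rankOne k he he')).trans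
      (numRadius_rankOne k he he' hee)
  · apply le_polyNumIndex (isHomPoly_rankOne k e e') (polyNorm_rankOne k he he')
    intro P hP h1
    have := sqrt_mul_polyNorm_le hk hP
    rwa [h1, mul_one] at this

theorem polyNumIndex_hilbert (hk : 1 ≤ k) (h : 2 ≤ Module.rank ℂ H) :
    polyNumIndex k H = (k : ℝ) ^ ((k : ℝ) / 2) / ((k : ℝ) + 1) ^ (((k : ℝ) + 1) / 2) := by
  have hk' : (0 : ℝ) < k := by exact_mod_cast hk
  rw [polyNumIndex_hilbert_sqrt hk h, Real.sqrt_div (by positivity), Real.sqrt_eq_rpow,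
    Real.sqrt_eq_rpow, ← Real.rpow_natCast, ← Real.rpow_natCast, ← Real.rpow_mul hk'.le,
    ← Real.rpow_mul (by linarith)]
  push_cast
  congr 2 <;> ring

theorem polyNumIndex_rank_one (h : Module.rank ℂ H = 1) : polyNumIndex k H = 1 := by
  obtain ⟨v, hv0, hv⟩ := rank_eq_one_iff.mp h
  have hpos : 0 < ‖v‖ := norm_pos_iff.mpr hv0
  set e : H := ((‖v‖⁻¹ : ℝ) : ℂ) • v with hedef
  have he : ‖e‖ = 1 := by
    rw [hedef, norm_smul, Complex.norm_real, Real.norm_eq_abs, abs_of_pos (inv_pos.mpr hpos)]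
    exact inv_mul_cancel₀ hpos.ne'
  apply le_antisymm
  · refine (polyNumIndex_le (isHomPoly_rankOne k e e) (polyNorm_rankOne k he he)).trans ?_
    rw [← polyNorm_rankOne k he he]
    exact numRadius_le_polyNorm (isHomPoly_rankOne k e e)
  · apply le_polyNumIndex (isHomPoly_rankOne k e e) (polyNorm_rankOne k he he)
    intro P hP h1
    rw [← h1]
    apply polyNorm_le (numRadius_nonneg P)
    intro x hx
    refine le_trans (le_of_eq ?_) (inner_le_numRadius hP hx)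
    obtain ⟨r, hr⟩ := hv x
    obtain ⟨s, hs⟩ := hv (P x)
    have hr0 : r ≠ 0 := by
      rintro rfl
      rw [zero_smul] at hr
      rw [← hr, norm_zero] at hx
      exact zero_ne_one hx
    have hPx : P x = (s / r) • x := by
      rw [← hs, ← hr, smul_smul, div_mul_cancel₀ _ hr0]
    rw [hPx, inner_smul_right, inner_self_eq_norm_sq_to_K, hx, norm_smul, hx]
    simp

end Pool.Agent.Lib.MP_8db9bd_an
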