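import Mathlib
import Pool.Agent.Lib.MP_8db9bd_an.HilbertMain

set_option autoImplicit false

namespace Pool.Agent.Lib.MP_8db9bd_an

open scoped ComplexConjugate
open Finset

/-- the complex space of absolutely summable sequences -/
noncomputable abbrev L1 := lp (fun _ : ℕ => ℂ) 1

lemma hasSum_norm_one (u : L1) : HasSum (fun j => ‖u j‖) ‖u‖ := by
  simpa using lp.hasSum_norm (p := 1) (by simp) u

lemma exists_mul (c : ℕ → ℂ) {K : ℝ} (hc : ∀ j, ‖c j‖ ≤ K) (u : L1) :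
    ∃ z : L1, ∀ j, z j = c j * u j :=
  ⟨⟨fun j => c j * u j, memℓp_gen (by
    simp only [ENNReal.toReal_one, Real.rpow_one, norm_mul]
    exact ((hasSum_norm_one u).summable.mul_left K).of_nonneg_of_le (fun _ => by positivity)
      fun j => mul_le_mul_of_nonneg_right (hc j) (norm_nonneg _))⟩, fun _ => rfl⟩

lemma summable_mul_one {c : ℕ → ℂ} (hc : ∀ j, ‖c j‖ ≤ 1) (u : L1) :
    Summable fun j => c j * u j :=
  Summable.of_norm_bounded (hasSum_norm_one u).summable fun j => by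
    rw [norm_mul]; exact mul_le_of_le_one_left (norm_nonneg _) (hc j)

lemma exists_fn (c : ℕ → ℂ) (hc : ∀ j, ‖c j‖ ≤ 1) :
    ∃ f : L1 →L[ℂ] ℂ, ‖f‖ ≤ 1 ∧ ∀ u, f u = ∑' j, c j * u j := by
  refine ⟨LinearMap.mkContinuous
    { toFun := fun u => ∑' j, c j * u j
      map_add' := fun u v => by
        rw [← (summable_mul_one hc u).tsum_add (summable_mul_one hc v)]
        exact tsum_congr fun j => by simp [mul_add]
      map_smul' := fun a u => by
        simp only [RingHom.id_apply, smul_eq_mul, ← tsum_mul_left]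
        exact tsum_congr fun j => by simp [mul_left_comm] } 1 fun u => ?_,
    LinearMap.mkContinuous_norm_le _ zero_le_one _, fun _ => rfl⟩
  rw [one_mul]
  exact tsum_of_norm_bounded (hasSum_norm_one u) fun j => by
    rw [norm_mul]; exact mul_le_of_le_one_left (norm_nonneg _) (hc j)

lemma pair_le {k : ℕ} (hk : 1 ≤ k) {P : L1 → L1} (hP : IsHomPoly k P) (u : L1) (c : ℕ → ℂ)
    (hc : ∀ j, ‖c j‖ ≤ 1) (hcu : ∀ j, c j * u j = ‖u j‖) :
    ‖∑' j, c j * P u j‖ ≤ numRadius P * ‖u‖ ^ k := by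
  obtain ⟨f, hf, hfu⟩ := exists_fn c hc
  rw [← hfu]
  have hv := numRadius_nonneg P
  obtain ⟨A, hA⟩ := id hP
  by_cases hu : u = 0
  · have : P u = 0 := by rw [hA, hu]; exact A.map_coord_zero ⟨0, hk⟩ rfl
    rw [this, map_zero, norm_zero]; positivity
  have hpos : 0 < ‖u‖ := norm_pos_iff.2 hu
  have h1 : f u = ‖u‖ := by
    rw [hfu, ← (hasSum_norm_one u).tsum_eq, Complex.ofReal_tsum]
    exact tsum_congr hcu
  obtain ⟨x, hxu⟩ : ∃ x : L1, x = ((‖u‖⁻¹ : ℝ) : ℂ) • u := ⟨_, rfl⟩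
  have hx : ‖x‖ = 1 := by
    rw [hxu, norm_smul, Complex.norm_real, Real.norm_eq_abs, abs_of_pos (inv_pos.mpr hpos)]
    exact inv_mul_cancel₀ hpos.ne'
  have hfx : f x = 1 := by
    rw [hxu, map_smul, h1, smul_eq_mul, ← Complex.ofReal_mul, inv_mul_cancel₀ hpos.ne']; simp
  have hf1 : ‖f‖ = 1 := le_antisymm hf (by simpa [hfx, hx] using f.le_opNorm x)
  have hux : u = ((‖u‖ : ℝ) : ℂ) • x := by
    rw [hxu, smul_smul, ← Complex.ofReal_mul, mul_inv_cancel₀ hpos.ne']; simp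
  have h := le_numRadius hP hx hf1 hfx
  have e : f (P u) = ((‖u‖ : ℝ) : ℂ) ^ k * f (P x) := by
    conv_lhs => rw [hux]
    rw [hA, hA, diag_smul, map_smul, smul_eq_mul]
  rw [e, norm_mul, norm_pow, Complex.norm_real, Real.norm_eq_abs, abs_of_pos hpos, mul_comm]
  gcongr

lemma exists_phase (a : ℂ) : ∃ y : ℂ, ‖y‖ = 1 ∧ y * a = ‖a‖ := by
  by_cases h : a = 0
  · exact ⟨1, by simp, by simp [h]⟩
  · have : (‖a‖ : ℂ) ≠ 0 := by simpa using h
    exact ⟨‖a‖ / a, by simp [h], by field_simp⟩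

lemma lower_aux {k : ℕ} (hk : 1 ≤ k) {P : L1 → L1} (hP : IsHomPoly k P) {x : L1} (hx : ‖x‖ = 1)
    {r : ℝ} (hr0 : 0 < r) (hr : r < 1) (J : Finset ℕ) :
    r * ∑ j ∈ J, ‖P x j‖ ≤ numRadius P * (1 + r ^ 2) ^ k := by
  classical
  choose y hy1 hy2 using fun j => exists_phase (x j)
  choose ω hω1 hω2 using fun j => exists_phase (y j * P x j)
  obtain ⟨w, hw⟩ : ∃ w : ℕ → ℂ, w = fun j => if j ∈ J then r * conj (ω j) else 0 := ⟨_, rfl⟩
  have hwn : ∀ j, ‖w j‖ ≤ r := fun j => by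
    rw [hw]; dsimp only
    split_ifs
    · simp [hω1, abs_of_pos hr0]
    · simpa using hr0.le
  have hden : ∀ (j) (l : ℂ), ‖l‖ ≤ 1 → 1 + w j * l ≠ 0 := fun j l hl h => by
    have h1 : w j * l = -1 := by linear_combination h
    have h2 := congrArg norm h1
    rw [norm_mul, norm_neg, norm_one] at h2
    nlinarith [hwn j, norm_nonneg l, norm_nonneg (w j)]
  obtain ⟨a, ha⟩ := exists_mul w hwn x
  obtain ⟨b, hb⟩ := exists_mul w hwn a
  obtain ⟨f, -, hf⟩ := exists_fn y fun j => (hy1 j).le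
  obtain ⟨β, hβ⟩ : ∃ β : ℂ, β = f a / (1 + r ^ 2 : ℝ) := ⟨_, rfl⟩
  have hfa : HasSum (fun j => w j * ‖x j‖) (f a) := by
    rw [hf, show (fun j => w j * (‖x j‖ : ℂ)) = fun j => y j * a j from
      funext fun j => by rw [ha, ← hy2]; ring]
    exact (summable_mul_one (fun j => (hy1 j).le) a).hasSum
  have hβn : ‖β‖ < 1 := by
    have : ‖f a‖ ≤ r * ‖x‖ := hfa.norm_le_of_bounded ((hasSum_norm_one x).mul_left r) fun j => by
      rw [norm_mul, Complex.norm_real, norm_norm]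
      exact mul_le_mul_of_nonneg_right (hwn j) (norm_nonneg _)
    rw [hβ, norm_div, Complex.norm_real, Real.norm_eq_abs, abs_of_pos (by positivity),
      div_lt_one (by positivity)]
    nlinarith
  have hden' : ∀ l : ℂ, ‖l‖ ≤ 1 → 1 + β * l ≠ 0 := fun l hl h => by
    have h1 : β * l = -1 := by linear_combination h
    have h2 := congrArg norm h1
    rw [norm_mul, norm_neg, norm_one] at h2
    nlinarith [norm_nonneg l, norm_nonneg β]
  obtain ⟨A, hA⟩ := id hP
  obtain ⟨z, hz⟩ : ∃ z : ℂ → L1, z = fun l => x + (2 * l) • a + l ^ 2 • b := ⟨_, rfl⟩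
  have hzj : ∀ l j, z l j = x j * (1 + w j * l) ^ 2 := fun l j => by
    rw [hz]; simp [ha, hb]; ring
  have hdP : Differentiable ℂ fun l => P (z l) := by
    have h1 : (fun l : ℂ => P (z l)) = fun l : ℂ => A (fun _ => z l) := funext fun l => hA _
    have h2 : Differentiable ℂ (fun l : ℂ => (fun _ : Fin k => z l)) := by
      rw [differentiable_pi, hz]
      intro i
      fun_prop
    rw [h1]
    exact ((A.contDiff (n := 1)).differentiable (by norm_num)).comp h2
  obtain ⟨g, hg⟩ : ∃ g : ℂ → ℂ, g = fun l => (l * f (P (z l)) + ∑ j ∈ J,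
    ((l + conj (w j)) / (1 + w j * l) - l) * y j * P (z l) j) / (1 + β * l) ^ (2 * k) := ⟨_, rfl⟩
  have hdg : DifferentiableOn ℂ g (closure (Metric.ball (0 : ℂ) 1)) := by
    rw [closure_ball _ one_ne_zero, hg]
    refine DifferentiableOn.div (DifferentiableOn.add
      (differentiable_id.mul (f.differentiable.comp hdP)).differentiableOn
      (DifferentiableOn.fun_sum fun j _ => DifferentiableOn.mul (DifferentiableOn.mul
        (DifferentiableOn.sub (DifferentiableOn.div (by fun_prop) (by fun_prop) fun l hl =>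
          hden j l (by simpa using hl)) (by fun_prop)) (by fun_prop))
        ((lp.evalCLM ℂ (fun _ : ℕ => ℂ) 1 j).differentiable.comp hdP).differentiableOn))
      (by fun_prop) fun l hl => pow_ne_zero _ (hden' l (by simpa using hl))
  have hfront : ∀ l ∈ frontier (Metric.ball (0 : ℂ) 1), ‖g l‖ ≤ numRadius P * (1 + r ^ 2) ^ k := by
    intro l hl
    rw [frontier_ball (0 : ℂ) one_ne_zero, mem_sphere_zero_iff_norm] at hl
    have hll : l * conj l = 1 := by rw [Complex.mul_conj', hl]; simp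
    have hc : ∀ j, ‖conj (1 + w j * l) / (1 + w j * l) * y j‖ ≤ 1 := fun j => by
      rw [norm_mul, norm_div, Complex.norm_conj, hy1,
        div_self (norm_ne_zero_iff.2 (hden j l hl.le)), one_mul]
    have k1 := pair_le hk hP (z l) _ hc fun j => by
      have := hden j l hl.le
      rw [hzj, norm_mul, norm_pow]
      push_cast
      rw [← hy2, ← Complex.conj_mul']
      field_simp
    have k2 : l * f (P (z l)) + ∑ j ∈ J, ((l + conj (w j)) / (1 + w j * l) - l) * y j * P (z l) j =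
        l * ∑' j, conj (1 + w j * l) / (1 + w j * l) * y j * P (z l) j := by
      have h1 := (summable_mul_one (fun j => (hy1 j).le) (P (z l))).hasSum.mul_left l
      have h2 : HasSum (fun j => ((l + conj (w j)) / (1 + w j * l) - l) * y j * P (z l) j) _ :=
        hasSum_sum_of_ne_finset_zero (s := J) fun j hj => by simp [hw, hj]
      rw [hf, ← tsum_mul_left, ← tsum_mul_left, ← h2.tsum_eq, ← h1.summable.tsum_add h2.summable]
      refine tsum_congr fun j => ?_
      have : l + conj (w j) = l * conj (1 + w j * l) := by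
        simp only [map_add, map_one, map_mul]
        linear_combination (-conj (w j)) * hll
      rw [this]; ring
    have k3 : ‖z l‖ ≤ (1 + r ^ 2) * ‖1 + β * l‖ ^ 2 := by
      have h1 := (((hasSum_norm_one x).mul_left (1 + r ^ 2)).add
        ((Complex.hasSum_re (hfa.mul_right l)).mul_left 2))
      refine (hasSum_le (fun j => ?_) (hasSum_norm_one (z l)) h1).trans ?_
      · rw [hzj, norm_mul, norm_pow, Complex.sq_norm, Complex.normSq_add, Complex.normSq_one,
          Complex.normSq_eq_norm_sq, norm_mul, hl, mul_one, one_mul, Complex.conj_re,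
          mul_right_comm, Complex.re_mul_ofReal]
        have : ‖w j‖ ^ 2 ≤ r ^ 2 := by gcongr; exact hwn j
        nlinarith [norm_nonneg (x j)]
      · have h2 : f a = β * (1 + r ^ 2 : ℝ) := by
          rw [hβ, div_mul_cancel₀]
          exact_mod_cast (by positivity : (1 + r ^ 2 : ℝ) ≠ 0)
        rw [hx, Complex.sq_norm, Complex.normSq_add, Complex.normSq_one, one_mul, Complex.conj_re,
          h2, mul_right_comm, Complex.re_mul_ofReal]
        nlinarith [Complex.normSq_nonneg (β * l), sq_nonneg r]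
    rw [hg]
    dsimp only
    rw [k2, norm_div, norm_mul, hl, one_mul, norm_pow,
      div_le_iff₀ (pow_pos (norm_pos_iff.2 (hden' l hl.le)) _), pow_mul, mul_assoc, ← mul_pow]
    refine k1.trans ?_
    have := numRadius_nonneg P
    gcongr
  have hmax := Complex.norm_le_of_forall_mem_frontier_norm_le Metric.isBounded_ball
    hdg.diffContOnCl hfront (subset_closure (Metric.mem_ball_self one_pos))
  have hz0 : z 0 = x := by rw [hz]; simp
  have e : g 0 = ((r * ∑ j ∈ J, ‖P x j‖ : ℝ) : ℂ) := by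
    rw [hg]
    simp only [hz0, zero_mul, mul_zero, zero_add, add_zero, div_one, sub_zero, one_pow]
    push_cast
    rw [mul_sum]
    refine sum_congr rfl fun j hj => ?_
    have := hω2 j
    rw [norm_mul, hy1, one_mul] at this
    simp only [hw, hj, if_true, map_mul, Complex.conj_ofReal, Complex.conj_conj]
    rw [← this]; ring
  rw [e, Complex.norm_real] at hmax
  exact (le_abs_self _).trans hmax

lemma lower_one {k : ℕ} (hk : 1 ≤ k) {P : L1 → L1} (hP : IsHomPoly k P) {r : ℝ} (hr0 : 0 < r)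
    (hr : r < 1) : r / (1 + r ^ 2) ^ k * polyNorm P ≤ numRadius P := by
  have hv := numRadius_nonneg P
  rw [mul_comm, ← le_div_iff₀ (by positivity)]
  refine polyNorm_le (by positivity) fun x hx =>
    lp.norm_le_of_forall_sum_le (by simp) (by positivity) fun J => ?_
  simp only [ENNReal.toReal_one, Real.rpow_one]
  rw [div_div_eq_mul_div, le_div_iff₀ hr0, mul_comm]
  exact lower_aux hk hP hx hr0 hr J

/-- the even part of an odd power of a binomial -/
noncomputable def hh : ℕ → ℂ → ℂ → ℂ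
  | 0, _, _ => 1
  | n + 1, a, b => (a + b) * hh n a b + 2 * b * hh n b a

lemma hh_spec (n : ℕ) (s t : ℂ) :
    (s + t) ^ (2 * n + 1) = s * hh n (s ^ 2) (t ^ 2) + t * hh n (t ^ 2) (s ^ 2) := by
  induction n with
  | zero => simp [hh]
  | succ n ih => rw [show 2 * (n + 1) + 1 = 2 * n + 1 + 2 by ring, pow_add, ih, hh, hh]; ring

lemma hh_half (n : ℕ) : hh n (1 / 2) (1 / 2) = 2 ^ n := by
  induction n with
  | zero => simp [hh]
  | succ n ih => rw [hh, ih]; ring

lemma hh_hom (n : ℕ) : ∀ i j : ℕ, ∃ A : ContinuousMultilinearMap ℂ (fun _ : Fin n => L1) ℂ,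
    ∀ x : L1, hh n (x i) (x j) = A fun _ => x := by
  induction n with
  | zero => exact fun _ _ => ⟨ContinuousMultilinearMap.uncurry0 ℂ L1 1, fun _ => rfl⟩
  | succ n ih =>
    intro i j
    obtain ⟨A, hA⟩ := ih i j
    obtain ⟨B, hB⟩ := ih j i
    refine ⟨ContinuousLinearMap.uncurryLeft (Ei := fun _ => L1)
      ((lp.evalCLM ℂ (fun _ : ℕ => ℂ) 1 i + lp.evalCLM ℂ (fun _ : ℕ => ℂ) 1 j).smulRight A +
        (lp.evalCLM ℂ (fun _ : ℕ => ℂ) 1 j).smulRight ((2 : ℂ) • B)), fun x => ?_⟩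
    rw [hh, hA, hB]
    show _ = (x i + x j) * A (fun _ => x) + x j * (2 * B fun _ => x)
    ring

/-- the test polynomial -/
noncomputable def testP (n : ℕ) (x : L1) : L1 :=
  (x 0 * hh n (x 0) (x 1)) • lp.single 1 0 (1 : ℂ) - (x 1 * hh n (x 1) (x 0)) • lp.single 1 1 (1 : ℂ)

lemma testP_hom (n : ℕ) (c : ℂ) : IsHomPoly (n + 1) fun x => c • testP n x := by
  obtain ⟨A, hA⟩ := hh_hom n 0 1
  obtain ⟨B, hB⟩ := hh_hom n 1 0
  refine ⟨c • ContinuousLinearMap.uncurryLeft (Ei := fun _ => L1)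
    ((lp.evalCLM ℂ (fun _ : ℕ => ℂ) 1 0).smulRight (A.smulRight (lp.single 1 0 (1 : ℂ))) -
      (lp.evalCLM ℂ (fun _ : ℕ => ℂ) 1 1).smulRight (B.smulRight (lp.single 1 1 (1 : ℂ)))),
    fun x => ?_⟩
  beta_reduce
  rw [testP, hA, hB, mul_smul, mul_smul]
  rfl

lemma coord_of_support {x : L1} {f : L1 →L[ℂ] ℂ} (hx : ‖x‖ = 1) (hf : ‖f‖ = 1) (hfx : f x = 1)
    (j : ℕ) : x j * f (lp.single 1 j (1 : ℂ)) = ‖x j‖ := by
  have h1 := lp.norm_compl_sum_single (p := 1) (by simp) x {j}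
  simp only [sum_singleton, ENNReal.toReal_one, Real.rpow_one, hx] at h1
  have h2 : lp.single 1 j (x j) = x j • (lp.single 1 j (1 : ℂ) : L1) := by
    rw [← lp.single_smul]; simp
  have h3 := f.le_opNorm (x - lp.single 1 j (x j))
  rw [hf, one_mul, h1, map_sub, hfx, h2, map_smul, smul_eq_mul] at h3
  have h4 : ‖x j * f (lp.single 1 j (1 : ℂ))‖ ≤ ‖x j‖ := by
    have := f.le_opNorm (lp.single 1 j (1 : ℂ))
    rw [hf, lp.norm_single (by simp), norm_one, one_mul] at this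
    rw [norm_mul]
    exact mul_le_of_le_one_right (norm_nonneg _) this
  generalize x j * f (lp.single 1 j (1 : ℂ)) = u at h3 h4
  have h5 := Complex.re_le_norm (1 - u)
  have h6 := Complex.re_le_norm u
  rw [Complex.sub_re, Complex.one_re] at h5
  have h7 : u.re = ‖u‖ := by linarith
  have h8 : ‖x j‖ = ‖u‖ := by linarith
  rw [h8]
  exact (Complex.norm_of_nonneg' (Complex.re_eq_norm.1 h7)).symm

lemma testP_radius (n : ℕ) {x : L1} {f : L1 →L[ℂ] ℂ} (hx : ‖x‖ = 1) (hf : ‖f‖ = 1)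
    (hfx : f x = 1) : ‖f (testP n x)‖ ≤ 2 ^ n * (Real.sqrt (((2 * n + 1 : ℕ) : ℝ) ^ (2 * n + 1) /
      (((2 * n + 1 : ℕ) : ℝ) + 1) ^ (2 * n + 1 + 1)) + 1 / 2 ^ (n + 1)) := by
  obtain ⟨s, hs⟩ := IsAlgClosed.exists_pow_nat_eq (x 0) two_pos
  obtain ⟨t, ht⟩ := IsAlgClosed.exists_pow_nat_eq (x 1) two_pos
  have h01 : ‖s‖ ^ 2 + ‖t‖ ^ 2 ≤ 1 := by
    have := lp.sum_rpow_le_norm_rpow (p := 1) (by simp) x {0, 1}
    rw [← norm_pow, ← norm_pow, hs, ht]
    simpa [hx] using this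
  have e : f (testP n x) =
      ((s + t) ^ (2 * n + 1) * conj (s - t) + (s - t) ^ (2 * n + 1) * conj (s + t)) / 2 := by
    have h0 := coord_of_support hx hf hfx 0
    have h1 := coord_of_support hx hf hfx 1
    have h2 := hh_spec n s (-t)
    rw [neg_sq, ← sub_eq_add_neg] at h2
    rw [testP, map_sub, map_smul, map_smul, smul_eq_mul, smul_eq_mul, mul_right_comm, h0,
      mul_right_comm, h1, hh_spec n s t, h2, ← hs, ← ht, norm_pow, norm_pow]
    push_cast
    rw [← Complex.mul_conj', ← Complex.mul_conj', map_add, map_sub]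
    ring
  have hpar : ‖s + t‖ ^ 2 + ‖s - t‖ ^ 2 ≤ 2 := by
    have := parallelogram_law_with_norm ℝ s t
    nlinarith
  have key : ∀ U V : ℝ, 0 ≤ V → V ≤ U → U ^ 2 + V ^ 2 ≤ 2 →
      U ^ (2 * n + 1) * V + V ^ (2 * n + 1) * U ≤ 2 ^ (n + 1) *
        Real.sqrt (((2 * n + 1 : ℕ) : ℝ) ^ (2 * n + 1) /
          (((2 * n + 1 : ℕ) : ℝ) + 1) ^ (2 * n + 1 + 1)) + 1 := by
    intro U V hV hVU h
    have hU : 0 ≤ U := hV.trans hVU
    refine add_le_add ?_ ?_
    · rw [← div_le_iff₀' (by positivity)]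
      apply Real.le_sqrt_of_sq_le
      refine le_trans (le_of_eq ?_) (amgm (2 * n + 1) (U ^ 2 / 2) (V ^ 2 / 2) (by positivity)
        (by positivity) (by linarith))
      rw [div_pow, div_pow]
      field_simp
      ring
    · calc V ^ (2 * n + 1) * U = V ^ n * V ^ n * (V * U) := by ring
        _ ≤ V ^ n * U ^ n * (V * U) := by gcongr
        _ = (V * U) ^ (n + 1) := by ring
        _ ≤ 1 := pow_le_one₀ (by positivity) (by nlinarith [sq_nonneg (U - V)])
  rw [e, norm_div, Complex.norm_two, div_le_iff₀ two_pos]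
  refine (norm_add_le _ _).trans ?_
  simp only [norm_mul, norm_pow, Complex.norm_conj]
  refine le_trans ?_ (le_of_eq (?_ : 2 ^ (n + 1) *
        Real.sqrt (((2 * n + 1 : ℕ) : ℝ) ^ (2 * n + 1) /
          (((2 * n + 1 : ℕ) : ℝ) + 1) ^ (2 * n + 1 + 1)) + 1 = _))
  · rcases le_total ‖s - t‖ ‖s + t‖ with h | h
    · exact key _ _ (norm_nonneg _) h hpar
    · rw [add_comm]; exact key _ _ (norm_nonneg _) h (by linarith)
  · field_simp
    ring

lemma testP_norm (n : ℕ) : 2 ^ n ≤ polyNorm (testP n) := by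
  have hP : IsHomPoly (n + 1) (testP n) := by simpa using testP_hom n 1
  have hn : ∀ a b : ℂ, ‖(a • lp.single 1 0 (1 : ℂ) + b • lp.single 1 1 (1 : ℂ) : L1)‖ =
      ‖a‖ + ‖b‖ := fun a b => by
    rw [← (hasSum_norm_one _).tsum_eq, tsum_eq_sum (s := {0, 1})]
    · simp
    · intro j hj
      simp only [mem_insert, mem_singleton, not_or] at hj
      simp [hj.1, hj.2]
  refine le_trans (le_of_eq ?_) (le_polyNorm hP
    (x := (1 / 2 : ℂ) • lp.single 1 0 (1 : ℂ) + (1 / 2 : ℂ) • lp.single 1 1 (1 : ℂ))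
    (by rw [hn]; norm_num))
  rw [testP, sub_eq_add_neg, ← neg_smul, hn]
  have h0 : ((1 / 2 : ℂ) • lp.single 1 0 (1 : ℂ) + (1 / 2 : ℂ) • lp.single 1 1 (1 : ℂ) : L1) 0 =
    1 / 2 := by simp
  have h1 : ((1 / 2 : ℂ) • lp.single 1 0 (1 : ℂ) + (1 / 2 : ℂ) • lp.single 1 1 (1 : ℂ) : L1) 1 =
    1 / 2 := by simp
  rw [h0, h1, hh_half, norm_neg, norm_mul, norm_pow]
  norm_num
  ring

theorem ell_one_sqrt (n : ℕ) (hn : 1 ≤ n) :
    Real.sqrt (((2 * n + 1 : ℕ) : ℝ) ^ (2 * n + 1) /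
      (((2 * n + 1 : ℕ) : ℝ) + 1) ^ (2 * n + 1 + 1)) ≤ polyNumIndex (n + 1) L1 ∧
    polyNumIndex (n + 1) L1 ≤ Real.sqrt (((2 * n + 1 : ℕ) : ℝ) ^ (2 * n + 1) /
      (((2 * n + 1 : ℕ) : ℝ) + 1) ^ (2 * n + 1 + 1)) + 1 / 2 ^ (n + 1) := by
  have hP : IsHomPoly (n + 1) (testP n) := by simpa using testP_hom n 1
  have hN := testP_norm n
  obtain ⟨N, hNd⟩ : ∃ N, N = polyNorm (testP n) := ⟨_, rfl⟩
  rw [← hNd] at hN
  have hN0 : 0 < N := lt_of_lt_of_le (by positivity) hN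
  have hQ := testP_hom n ((N⁻¹ : ℝ) : ℂ)
  have hsm : ∀ u : L1, ‖((N⁻¹ : ℝ) : ℂ) • u‖ = N⁻¹ * ‖u‖ := fun u => by
    rw [norm_smul, Complex.norm_real, Real.norm_eq_abs, abs_of_pos (inv_pos.2 hN0)]
  have hQ1 : polyNorm (fun x => ((N⁻¹ : ℝ) : ℂ) • testP n x) = 1 := by
    refine le_antisymm (polyNorm_le zero_le_one fun x hx => ?_) ?_
    · rw [hsm, inv_mul_le_iff₀ hN0, mul_one, hNd]; exact le_polyNorm hP hx
    · rw [← mul_le_mul_iff_right₀ hN0, mul_one]
      refine hNd.le.trans (polyNorm_le (mul_nonneg hN0.le (polyNorm_nonneg _)) fun x hx => ?_)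
      rw [← inv_mul_le_iff₀ hN0, ← hsm]
      exact le_polyNorm hQ hx
  refine ⟨le_polyNumIndex hQ hQ1 fun P hP h1 => ?_, (polyNumIndex_le hQ hQ1).trans
    (numRadius_le (by positivity) fun x f hx hf hfx => ?_)⟩
  · obtain ⟨K, hK⟩ : ∃ K : ℝ, K = ((2 * n + 1 : ℕ) : ℝ) := ⟨_, rfl⟩
    have hK1 : 1 < K := by rw [hK]; exact_mod_cast (by omega)
    have hs : 1 < Real.sqrt K := Real.lt_sqrt_of_sq_lt (by simpa using hK1)
    have := lower_one (by omega) hP (r := (Real.sqrt K)⁻¹) (by positivity) (inv_lt_one_of_one_lt₀ hs)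
    rw [h1, mul_one] at this
    rw [← hK]
    refine le_trans (Real.sqrt_le_iff.2 ⟨by positivity, le_of_eq ?_⟩) this
    rw [div_pow, ← pow_mul, inv_pow, Real.sq_sqrt (by linarith),
      show 1 + K⁻¹ = (K + 1) / K by field_simp, div_pow]
    field_simp
    ring
  · rw [map_smul, norm_smul, Complex.norm_real, Real.norm_eq_abs, abs_of_pos (inv_pos.2 hN0),
      inv_mul_le_iff₀ hN0]
    refine (testP_radius n hx hf hfx).trans ?_
    gcongr

theorem ell_one (k : ℕ) (hk : 2 ≤ k) :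
    (2 * (k : ℝ) - 1) ^ ((k : ℝ) - 1 / 2) / (2 * (k : ℝ)) ^ k ≤ polyNumIndex k L1 ∧
    polyNumIndex k L1 ≤
      (2 * (k : ℝ) - 1) ^ ((k : ℝ) - 1 / 2) / (2 * (k : ℝ)) ^ k + 1 / 2 ^ k := by
  obtain ⟨n, rfl⟩ : ∃ n, k = n + 1 := ⟨k - 1, by omega⟩
  have e : (2 * ((n + 1 : ℕ) : ℝ) - 1) ^ (((n + 1 : ℕ) : ℝ) - 1 / 2) /
      (2 * ((n + 1 : ℕ) : ℝ)) ^ (n + 1) = Real.sqrt (((2 * n + 1 : ℕ) : ℝ) ^ (2 * n + 1) /
      (((2 * n + 1 : ℕ) : ℝ) + 1) ^ (2 * n + 1 + 1)) := by
    rw [Real.sqrt_div (by positivity), show 2 * n + 1 + 1 = (n + 1) * 2 by ring, pow_mul,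
      Real.sqrt_sq (by positivity), Real.sqrt_eq_rpow, ← Real.rpow_natCast _ (2 * n + 1),
      ← Real.rpow_mul (by positivity)]
    push_cast
    congr 2 <;> ring
  rw [e]
  exact ell_one_sqrt n (by omega)

end Pool.Agent.Lib.MP_8db9bd_an
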